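import Pool.Agent.H648Z.SP.Core

set_option autoImplicit false

open Filter Topology

namespace Pool.Agent.Results.MP_7e65d6_nt.ThickNotEInt

/-- Upper density of `A` relative to `E`. -/
noncomputable def upperRel (E A : Set ℕ) : ℝ :=
  limsup (fun N : ℕ => ((A ∩ E ∩ Set.Icc 1 N).ncard : ℝ) / ((E ∩ Set.Icc 1 N).ncard : ℝ)) atTop

/-- `R` meets `A - A` for every `A ⊆ E` of positive upper density relative to `E`. -/
def EIntersective (E R : Set ℕ) : Prop :=
  ∀ A : Set ℕ, A ⊆ E → 0 < upperRel E A → ∃ a ∈ A, ∃ b ∈ A, ∃ r ∈ R, (a : ℤ) - (b : ℤ) = (r : ℤ)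

/-- `R` is intersective: `E`-intersective for `E` the set of positive integers. -/
def Intersective (R : Set ℕ) : Prop := EIntersective {n | 1 ≤ n} R

/-- Upper Banach density zero: `sup_M |E ∩ [M, M + N)| / N → 0` as `N → ∞`, the supremum over the
positive integers `M`. -/
def BanachNull (E : Set ℕ) : Prop :=
  Tendsto (fun N : ℕ => ⨆ M : ℕ+, ((E ∩ Set.Ico (M : ℕ) (M + N)).ncard : ℝ) / (N : ℝ)) atTop (𝓝 0)

/-- `R` contains arbitrarily long intervals. -/
def Thick (R : Set ℕ) : Prop := ∀ n : ℕ, ∃ t : ℕ, Set.Icc t (t + n) ⊆ R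

open Pool.Agent.H648Z.SP in
lemma sparse_of {E : Set ℕ} (hE : 0 ∉ E) (h : BanachNull E) : Sparse E := by
  intro ε hε
  have h1 := (tendsto_order.1 h).2 ε hε
  rw [eventually_atTop] at h1
  obtain ⟨M0, hM⟩ := h1
  refine ⟨M0 + 1, fun a M hM' => ?_⟩
  have hMr : (0 : ℝ) < M := by exact_mod_cast (by omega : 0 < M)
  have hb : BddAbove (Set.range fun a : ℕ+ =>
      ((E ∩ Set.Ico (a : ℕ) (a + M)).ncard : ℝ) / (M : ℝ)) := by
    refine ⟨1, ?_⟩
    rintro _ ⟨a, rfl⟩
    refine div_le_one_of_le₀ ?_ (by positivity)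
    have := Set.ncard_le_ncard (Set.inter_subset_right (s := E) (t := Set.Ico (a : ℕ) (a + M)))
      (Set.finite_Ico _ _)
    rw [Set.ncard_Ico_nat, add_tsub_cancel_left] at this
    exact_mod_cast this
  have h2 := (le_ciSup hb ⟨max a 1, by omega⟩).trans_lt (hM M (by omega))
  rw [div_lt_iff₀ hMr] at h2
  refine le_trans ?_ h2.le
  have h3 : E ∩ Set.Ico a (a + M) ⊆ E ∩ Set.Ico (max a 1) (max a 1 + M) := by
    rintro x ⟨hx, h4, h5⟩
    have : x ≠ 0 := fun e => hE (e ▸ hx)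
    exact ⟨hx, by omega, by omega⟩
  exact_mod_cast Set.ncard_le_ncard h3 ((Set.finite_Ico _ _).subset Set.inter_subset_right)

open Pool.Agent.H648Z.SP in
/-- For every infinite set `E` of positive integers of upper Banach density zero there is a thick
set `R` of positive integers that is intersective but not `E`-intersective. -/
theorem result (E : Set ℕ) (h0 : 0 ∉ E) (hE : E.Infinite) (hd : BanachNull E) :
    ∃ R : Set ℕ, 0 ∉ R ∧ Thick R ∧ Intersective R ∧ ¬ EIntersective E R := by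
  obtain ⟨A, t, hA, ht, hdiff, hfr⟩ := core (sparse_of h0 hd) (η := 1 / 2) (by positivity)
  refine ⟨{s | ∃ n, t n ≤ s ∧ s ≤ t n + n}, ?_, fun n => ⟨t n, fun s hs => ⟨n, hs⟩⟩, ?_, ?_⟩
  · rintro ⟨n, h1, -⟩
    have := ht n
    omega
  · intro B hB hpos
    have h1 : upperRel {n | 1 ≤ n} B = limsup (fun N => ((cut B N).card : ℝ) / N) atTop := by
      unfold upperRel
      congr 1
      funext N
      rw [Set.inter_eq_left.2 hB, ncard_cut,
        Set.inter_eq_right.2 (show Set.Icc 1 N ⊆ {n | 1 ≤ n} from fun x hx => hx.1)]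
      simp
    rw [h1] at hpos
    obtain ⟨a, ha, b, hb, s, hs, e⟩ := thick_meets (R := {s | ∃ n, t n ≤ s ∧ s ≤ t n + n})
      (fun n => ⟨t n, ht n, fun s h2 h3 => ⟨n, h2, h3⟩⟩) hpos
    exact ⟨a, ha, b, hb, s, hs, by omega⟩
  · intro h
    have h1 : 1 - 1 / 2 ≤ upperRel E A := by
      unfold upperRel
      simp only [Set.inter_eq_left.2 hA, ncard_cut]
      exact le_limsup_ratio hE hA hfr
    obtain ⟨a, ha, b, hb, s, ⟨n, h2, h3⟩, e⟩ := h A hA (by linarith)
    exact hdiff n s h2 h3 a ha b hb (by omega)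

end Pool.Agent.Results.MP_7e65d6_nt.ThickNotEInt
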